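import Mathlib
import Pool.Agent.Helper892.BP.Main

/-!
# The error term of the truncated inequality on `ℙ¹ × ℙ¹`

`K` is any number field. Let `D` be a divisor on `ℙ¹ × ℙ¹` which contains two `K`-rational fibres of
each of the two projections. In suitable coordinates these are the fibres over `0` and `∞`, so that
`D` is the zero locus of `s_0 s_1 t_0 t_1 F(s, t)`, where `F` is bihomogeneous of bidegree `(d, e)`;
then `D` has the bidegree `(q, r) = (d + 2, e + 2)` and `H_D(α, β) = d h_K(α) + e h_K(β)`. Suppose that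
`F` has a zero of multiplicity at least `μ ≥ 1` at the point `((1 : 1), (1 : 1))`; for a normal
crossings divisor `D` this is possible with `μ = 1` and `μ = 2`. For example, if `D` contains three
rational fibres in both directions, those over `0, 1, ∞`, then `(s_1 - s_0) (t_1 - t_0)` divides `F`
and `μ = 2`.

The theorem: for every exponent `κ < μ / (μ + 1)` and every proper closed subset `Z` there are points
`(α, β)` outside `Z` and off `D`, of arbitrarily large height, with
`N^(1)_D(α, β) + (h_K(α) + h_K(β)) ^ κ ≤ H_D(α, β)`. So the term `ε (h(α) + h(β))` in the conjecture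
cannot be replaced by `(h(α) + h(β)) ^ κ`, for any `κ < μ / (μ + 1)`, whatever the exceptional set.

Proof: let `R` be the product of the odd primes up to `Y`. There are so many divisors of `R ^ A`, by
the pigeonhole principle, that the polynomial which defines `Z` does not vanish at all quadruples of
such divisors which are congruent modulo `2 ^ m`, where `m` is about `Y / log 2`. At such a quadruple
the value of `F` is divisible by `2 ^ (μ m)`, and the primes up to `Y` are counted only once.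
-/

set_option autoImplicit false

open NumberField IsDedekindDomain MvPolynomial

namespace Pool.Agent.Results.MP_542436_nt.ErrorTerm

variable {K : Type} [Field K] [NumberField K]

/-- `F(s_0, s_1; t_0, t_1)` is bihomogeneous of bidegree `(d, e)`; the variables `s_i` are
`X (Sum.inl i)`, the variables `t_j` are `X (Sum.inr j)`. -/
def Bihomogeneous {R : Type} [CommRing R] (F : MvPolynomial (Fin 2 ⊕ Fin 2) R) (d e : ℕ) : Prop :=
  F.IsWeightedHomogeneous
    (Sum.elim (fun _ : Fin 2 => ((1, 0) : ℕ × ℕ)) (fun _ : Fin 2 => ((0, 1) : ℕ × ℕ))) (d, e)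

/-- The local height `λ_{D,p}(s, t) = - log (|Φ(s, t)|_p / (max |s_i|_p ^ q * max |t_j|_p ^ r))` for
the divisor `D : Φ = 0` of bidegree `(q, r)` and the prime `p`. -/
noncomputable def localHeight (p : HeightOneSpectrum (𝓞 K)) (q r : ℕ)
    (Φ : MvPolynomial (Fin 2 ⊕ Fin 2) K) (s t : Fin 2 → K) : ℝ :=
  -Real.log (FinitePlace.mk p (eval (Sum.elim s t) Φ) /
    (max (FinitePlace.mk p (s 0)) (FinitePlace.mk p (s 1)) ^ q *
      max (FinitePlace.mk p (t 0)) (FinitePlace.mk p (t 1)) ^ r))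

/-- The truncated counting function `N^(1)_D(α, β)` at the point with the coordinates `s`, `t`. -/
noncomputable def truncatedCounting (q r : ℕ) (Φ : MvPolynomial (Fin 2 ⊕ Fin 2) K)
    (s t : Fin 2 → K) : ℝ :=
  ∑ᶠ p : HeightOneSpectrum (𝓞 K),
    min (Real.log (Ideal.absNorm p.asIdeal : ℕ)) (localHeight p q r Φ s t)

/-- The ideal of the point `((1 : 1), (1 : 1))`. -/
noncomputable def pointIdeal (K : Type) [Field K] : Ideal (MvPolynomial (Fin 2 ⊕ Fin 2) (𝓞 K)) :=
  Ideal.span {X (Sum.inl 1) - X (Sum.inl 0), X (Sum.inr 1) - X (Sum.inr 0)}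

/-- The equation `s_0 s_1 t_0 t_1 F(s, t)` of the divisor `D`. -/
noncomputable def equation (F : MvPolynomial (Fin 2 ⊕ Fin 2) (𝓞 K)) :
    MvPolynomial (Fin 2 ⊕ Fin 2) K :=
  (∏ i, X i) * F.map (algebraMap (𝓞 K) K)

/-- **The error term of the truncated inequality on `ℙ¹ × ℙ¹`.**
Let `K` be a number field, `F ≠ 0` bihomogeneous of bidegree `(d, e)` with integral coefficients, in
the `μ`-th power (`μ ≥ 1`) of the ideal of the point `((1 : 1), (1 : 1))`, `D` the divisor
`s_0 s_1 t_0 t_1 F(s, t) = 0` of bidegree `(d + 2, e + 2)` and `0 < κ < μ / (μ + 1)`. For every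
bihomogeneous `G ≠ 0` over `K` there are points `(α, β)` over `K` with `h_K(α) + h_K(β)` arbitrarily
large, off `D` and with `G(α, β) ≠ 0`, such that
`N^(1)_D(α, β) + (h_K(α) + h_K(β)) ^ κ ≤ d h_K(α) + e h_K(β) = H_D(α, β)`. Here
`h_K = Height.logHeight` is the height relative to `K`. -/
theorem result (μ d e d' e' : ℕ) (hμ : 1 ≤ μ) (F : MvPolynomial (Fin 2 ⊕ Fin 2) (𝓞 K))
    (hF0 : F ≠ 0) (hFd : Bihomogeneous F d e) (hF : F ∈ pointIdeal K ^ μ)
    (G : MvPolynomial (Fin 2 ⊕ Fin 2) K) (hG0 : G ≠ 0) (hGd : Bihomogeneous G d' e')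
    (κ : ℝ) (hκ0 : 0 < κ) (hκ : κ < μ / (μ + 1)) (B : ℝ) :
    ∃ s t : Fin 2 → K, (∀ i, s i ≠ 0) ∧ (∀ j, t j ≠ 0) ∧
      eval (Sum.elim s t) (equation F) ≠ 0 ∧ eval (Sum.elim s t) G ≠ 0 ∧
      B ≤ Height.logHeight s + Height.logHeight t ∧
      {p : HeightOneSpectrum (𝓞 K) |
        localHeight p (d + 2) (e + 2) (equation F) s t ≠ 0}.Finite ∧
      truncatedCounting (d + 2) (e + 2) (equation F) s t +
        (Height.logHeight s + Height.logHeight t) ^ κ ≤
        d * Height.logHeight s + e * Height.logHeight t := by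
  obtain ⟨a, b, R, A, hR0, ha0, hb0, haR, hbR, hxF, hxG, hxB, hV⟩ :=
    Pool.Agent.Helper892.BP.main hμ F hF0 hFd hF G hG0 hGd κ hκ0 hκ B
  set s : Fin 2 → K := fun i => ((a i : ℕ) : K) with hs
  set t : Fin 2 → K := fun i => ((b i : ℕ) : K) with ht
  have hs0 : ∀ i, s i ≠ 0 := fun i => by
    have : (a i : ℕ) ≠ 0 := (ha0 i).ne'
    simpa [hs] using this
  have ht0 : ∀ i, t i ≠ 0 := fun i => by
    have : (b i : ℕ) ≠ 0 := (hb0 i).ne'
    simpa [ht] using this
  have hev : eval (Sum.elim s t) (F.map (algebraMap (𝓞 K) K)) =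
      ((Pool.Agent.Helper892.BP.ev2 F a b : 𝓞 K) : K) :=
    (Pool.Agent.Helper892.BP.ev2_coe F a b).symm
  have heq : eval (Sum.elim s t) (equation F) =
      (∏ i, s i) * (∏ j, t j) * ((Pool.Agent.Helper892.BP.ev2 F a b : 𝓞 K) : K) := by
    unfold equation
    rw [map_mul, map_prod, Fintype.prod_sum_type, hev]
    simp only [eval_X, Sum.elim_inl, Sum.elim_inr]
  have heq0 : eval (Sum.elim s t) (equation F) ≠ 0 := by
    rw [heq]
    refine mul_ne_zero (mul_ne_zero (Finset.prod_ne_zero_iff.2 fun i _ => hs0 i)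
      (Finset.prod_ne_zero_iff.2 fun i _ => ht0 i)) ?_
    exact fun h => hxF (RingOfIntegers.coe_eq_zero_iff.1 h)
  set V : Set (HeightOneSpectrum (𝓞 K)) := {q | ((R : ℕ) : 𝓞 K) ∈ q.asIdeal ∨
    ((2 : ℕ) : 𝓞 K) ∈ q.asIdeal ∨ Pool.Agent.Helper892.BP.ev2 F a b ∈ q.asIdeal} with hVdef
  have hVfin : V.Finite := by
    have h0 : Ideal.span {((R : ℕ) : 𝓞 K) * ((2 : ℕ) : 𝓞 K) *
        Pool.Agent.Helper892.BP.ev2 F a b} ≠ 0 := by
      rw [Ne, Ideal.zero_eq_bot, Ideal.span_singleton_eq_bot]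
      refine mul_ne_zero (mul_ne_zero ?_ ?_) hxF
      · exact_mod_cast hR0.ne'
      · exact Nat.cast_ne_zero.2 two_ne_zero
    refine (Ideal.finite_factors h0).subset fun w hw => ?_
    show w.asIdeal ∣ _
    rw [Ideal.dvd_span_singleton]
    rcases hw with h | h | h
    · exact Ideal.mul_mem_right _ _ (Ideal.mul_mem_right _ _ h)
    · exact Ideal.mul_mem_right _ _ (Ideal.mul_mem_left _ _ h)
    · exact Ideal.mul_mem_left _ _ h
  have hzero : ∀ q : HeightOneSpectrum (𝓞 K), q ∉ V →
      localHeight q (d + 2) (e + 2) (equation F) s t = 0 := by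
    intro q hq
    have hq' : ¬ (((R : ℕ) : 𝓞 K) ∈ q.asIdeal ∨ ((2 : ℕ) : 𝓞 K) ∈ q.asIdeal ∨
      Pool.Agent.Helper892.BP.ev2 F a b ∈ q.asIdeal) := hq
    push Not at hq'
    obtain ⟨h1, -, h3⟩ := hq'
    have hs1 : ∀ i, FinitePlace.mk q (s i) = 1 := by
      intro i
      rw [Pool.Agent.Helper892.SE.mk_eq_av]
      by_contra h
      exact h1 (Pool.Agent.Helper892.ST.av_nat_ne (haR i) q h)
    have ht1 : ∀ i, FinitePlace.mk q (t i) = 1 := by
      intro i
      rw [Pool.Agent.Helper892.SE.mk_eq_av]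
      by_contra h
      exact h1 (Pool.Agent.Helper892.ST.av_nat_ne (hbR i) q h)
    have hF1 : FinitePlace.mk q ((Pool.Agent.Helper892.BP.ev2 F a b : 𝓞 K) : K) = 1 := by
      rw [Pool.Agent.Helper892.SE.mk_eq_av]
      exact (Pool.Agent.Helper892.SE.av_eq_one_iff q _).2 h3
    unfold localHeight
    rw [heq, map_mul, map_mul, map_prod, map_prod, hF1]
    simp only [hs1, ht1]
    simp
  have hlog : ∀ q : HeightOneSpectrum (𝓞 K), 0 ≤ Real.log (Ideal.absNorm q.asIdeal : ℕ) :=
    fun q => Real.log_natCast_nonneg _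
  refine ⟨s, t, hs0, ht0, heq0, hxG, hxB.le, hVfin.subset fun q hq => ?_, ?_⟩
  · by_contra h
    exact hq (hzero q h)
  · refine le_trans (add_le_add_left ?_ _) (hV V fun q hq => hq)
    unfold truncatedCounting
    rw [finsum_mem_eq_finite_toFinset_sum _ hVfin, finsum_eq_sum_of_support_subset _ (s := hVfin.toFinset)]
    · exact Finset.sum_le_sum fun q _ => min_le_left _ _
    · intro q hq
      rw [Set.Finite.coe_toFinset]
      by_contra h
      apply hq
      show min _ _ = (0 : ℝ)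
      rw [hzero q h]
      exact min_eq_right (hlog q)

end Pool.Agent.Results.MP_542436_nt.ErrorTerm
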